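import Pool.Agent.X37.FE.Stm

set_option autoImplicit false

namespace Pool.Agent.X106.FE
open MeasureTheory Set Filter Topology RealInnerProductSpace

theorem gron (e e' : ℝ → ℝ) (a k τ : ℝ) (ha : 0 < a)
    (he : ∀ t, HasDerivAt e (e' t) t) (hb : ∀ t, 0 ≤ t → t ≤ τ → e' t ≤ a * e t + k) :
    ∀ t, 0 ≤ t → t ≤ τ → e t + k / a ≤ Real.exp (a * t) * (e 0 + k / a) := by
  intro t ht0 htτ
  set f : ℝ → ℝ := fun s => (e s + k / a) * Real.exp (-(a * s)) with hf
  have hd : ∀ s, HasDerivAt f (e' s * Real.exp (-(a * s)) +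
      (e s + k / a) * (Real.exp (-(a * s)) * (-a))) s := by
    intro s
    have h1 : HasDerivAt (fun s => e s + k / a) (e' s) s := (he s).add_const _
    have h2 : HasDerivAt (fun s : ℝ => Real.exp (-(a * s))) (Real.exp (-(a * s)) * (-a)) s := by
      have : HasDerivAt (fun s : ℝ => -(a * s)) (-a) s := by
        simpa using (hasDerivAt_id s).const_mul (-a)
      exact this.exp
    exact h1.mul h2
  have hanti : AntitoneOn f (Icc 0 τ) := by
    apply antitoneOn_of_deriv_nonpos (convex_Icc 0 τ)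
    · exact fun s _ => (hd s).continuousAt.continuousWithinAt
    · exact fun s _ => (hd s).differentiableAt.differentiableWithinAt
    · intro s hs
      rw [interior_Icc] at hs
      rw [(hd s).deriv]
      have h1 := hb s hs.1.le hs.2.le
      have h2 := Real.exp_pos (-(a * s))
      have h3 : (e s + k / a) * a = a * e s + k := by field_simp
      have h4 : e' s * Real.exp (-(a * s)) + (e s + k / a) * (Real.exp (-(a * s)) * (-a)) =
        (e' s - (e s + k / a) * a) * Real.exp (-(a * s)) := by ring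
      rw [h4, h3]
      exact mul_nonpos_of_nonpos_of_nonneg (by linarith) h2.le
  have h := hanti ⟨le_refl 0, ht0.trans htτ⟩ ⟨ht0, htτ⟩ ht0
  simp only [hf, mul_zero, neg_zero, Real.exp_zero, mul_one] at h
  have h5 : e t + k / a = Real.exp (a * t) * ((e t + k / a) * Real.exp (-(a * t))) := by
    rw [Real.exp_neg]
    field_simp
  rw [h5]
  exact mul_le_mul_of_nonneg_left h (Real.exp_pos _).le

theorem t_BND (H : Type*) [NormedAddCommGroup H] [InnerProductSpace ℝ H] [CompleteSpace H] :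
    Pool.Agent.X37.FE.S_BND H := by
  intro c τ hc hτ
  set a : ℝ := 2 * c + 1 with ha
  have ha1 : 1 ≤ a := by linarith
  have hE1 : 1 ≤ Real.exp (a * τ) := Real.one_le_exp (by positivity)
  refine ⟨Real.exp (a * τ) * (1 + τ), by positivity, ?_⟩
  intro L hsym hpos Z R g K hK hZ hR hZ0 hg
  set e : ℝ → ℝ := fun t => ⟪R t, R t⟫ + ⟪L (Z t), Z t⟫ with he0
  have he : ∀ t, HasDerivAt e (-(2 * c) * ⟪R t, R t⟫ + 2 * ⟪g t, R t⟫) t := by
    intro t
    have h1 := (hR t).inner ℝ (hR t)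
    have h2 := (L.hasFDerivAt.comp_hasDerivAt t (hZ t)).inner ℝ (hZ t)
    have h3 := h1.add h2
    refine HasDerivAt.congr_deriv (f := e) h3 ?_
    simp only [inner_add_left, inner_sub_left, inner_neg_left, real_inner_smul_left, inner_add_right,
      inner_sub_right, inner_neg_right, real_inner_smul_right, hsym (R t) (Z t), Function.comp]
    rw [real_inner_comm (g t) (R t), real_inner_comm (L (Z t)) (R t)]
    ring
  have hRe : ∀ t, ‖R t‖ ^ 2 ≤ e t := by
    intro t
    simp only [he0, real_inner_self_eq_norm_sq]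
    linarith [hpos (Z t)]
  have hbd : ∀ t, |t| ≤ τ → |(-(2 * c) * ⟪R t, R t⟫ + 2 * ⟪g t, R t⟫)| ≤ a * e t + K ^ 2 := by
    intro t ht
    have h1 : |⟪g t, R t⟫| ≤ K * ‖R t‖ :=
      (abs_real_inner_le_norm _ _).trans (mul_le_mul_of_nonneg_right (hg t ht) (norm_nonneg _))
    have h2 := hRe t
    have h3 := abs_le.1 h1
    rw [real_inner_self_eq_norm_sq]
    rw [abs_le]
    constructor
    · nlinarith [sq_nonneg (K - ‖R t‖), sq_nonneg ‖R t‖]
    · nlinarith [sq_nonneg (K - ‖R t‖), sq_nonneg ‖R t‖]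
  have hpo : ∀ t, 0 ≤ t → t ≤ τ → e t + K ^ 2 / a ≤ Real.exp (a * t) * (e 0 + K ^ 2 / a) :=
    gron e _ a (K ^ 2) τ (by linarith) he (fun t h0 h1 =>
      (le_abs_self _).trans (hbd t (by rw [abs_of_nonneg h0]; exact h1)))
  have hne : ∀ t, 0 ≤ t → t ≤ τ → e (-t) + K ^ 2 / a ≤ Real.exp (a * t) * (e (-0) + K ^ 2 / a) := by
    refine gron (fun t => e (-t)) (fun t => -(-(2 * c) * ⟪R (-t), R (-t)⟫ + 2 * ⟪g (-t), R (-t)⟫))
      a (K ^ 2) τ (by linarith) (fun t => ?_) (fun t h0 h1 => ?_)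
    · have := (he (-t)).scomp t (hasDerivAt_neg t)
      simpa [Function.comp_def] using this
    · exact (neg_le_abs _).trans (hbd (-t) (by rw [abs_neg, abs_of_nonneg h0]; exact h1))
  have he00 : e 0 = ‖R 0‖ ^ 2 := by
    simp only [he0, hZ0, real_inner_self_eq_norm_sq]
    simp
  have hall : ∀ t, |t| ≤ τ → e t ≤ Real.exp (a * τ) * (‖R 0‖ + K) ^ 2 := by
    intro t ht
    have hka : 0 ≤ K ^ 2 / a := by positivity
    have hka2 : K ^ 2 / a ≤ K ^ 2 := div_le_self (sq_nonneg _) ha1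
    have hs : e 0 + K ^ 2 / a ≤ (‖R 0‖ + K) ^ 2 := by
      rw [he00]; nlinarith [norm_nonneg (R 0), mul_nonneg (norm_nonneg (R 0)) hK]
    have hs0 : 0 ≤ e 0 + K ^ 2 / a := by rw [he00]; positivity
    have key : e t + K ^ 2 / a ≤ Real.exp (a * |t|) * (e 0 + K ^ 2 / a) := by
      rcases le_total 0 t with h | h
      · rw [abs_of_nonneg h] at ht ⊢
        exact hpo t h ht
      · rw [abs_of_nonpos h] at ht ⊢
        have := hne (-t) (by linarith) ht
        simpa using this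
    have hex : Real.exp (a * |t|) ≤ Real.exp (a * τ) :=
      Real.exp_le_exp.2 (mul_le_mul_of_nonneg_left ht (by linarith))
    calc e t ≤ e t + K ^ 2 / a := by linarith
      _ ≤ _ := key
      _ ≤ Real.exp (a * τ) * (e 0 + K ^ 2 / a) := mul_le_mul_of_nonneg_right hex hs0
      _ ≤ _ := mul_le_mul_of_nonneg_left hs (Real.exp_pos _).le
  have hs0 : 0 ≤ ‖R 0‖ + K := add_nonneg (norm_nonneg _) hK
  have hRb : ∀ t, |t| ≤ τ → ‖R t‖ ≤ Real.exp (a * τ) * (‖R 0‖ + K) := by
    intro t ht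
    have h1 := (hRe t).trans (hall t ht)
    have h2 : ‖R t‖ ^ 2 ≤ (Real.exp (a * τ) * (‖R 0‖ + K)) ^ 2 := by
      refine h1.trans ?_
      rw [mul_pow]
      exact mul_le_mul_of_nonneg_right (by nlinarith) (sq_nonneg _)
    exact le_of_sq_le_sq h2 (by positivity)
  intro t ht
  have hER : 0 ≤ Real.exp (a * τ) * (‖R 0‖ + K) := by positivity
  refine ⟨(hRb t ht).trans ?_, ?_⟩
  · nlinarith
  · have hmv : ‖Z t - Z 0‖ ≤ Real.exp (a * τ) * (‖R 0‖ + K) * ‖t - 0‖ :=
      Convex.norm_image_sub_le_of_norm_hasDerivWithin_le (s := Icc (-τ) τ)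
        (fun x _ => (hZ x).hasDerivWithinAt) (fun x hx => hRb x (abs_le.2 hx)) (convex_Icc _ _)
        ⟨by linarith, hτ⟩ (abs_le.1 ht)
    rw [hZ0, sub_zero, sub_zero, Real.norm_eq_abs] at hmv
    refine hmv.trans ?_
    have : Real.exp (a * τ) * (‖R 0‖ + K) * |t| ≤ Real.exp (a * τ) * (‖R 0‖ + K) * τ :=
      mul_le_mul_of_nonneg_left ht hER
    nlinarith

end Pool.Agent.X106.FE
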